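import Pool.Agent.H773.IE.SR

/-!
# Boxes from levels
-/

set_option autoImplicit false

open MeasureTheory Set Filter Topology
open scoped ENNReal

namespace Pool.Agent.H261.IE

open Pool.Agent.H773.IE

variable {n : ℕ} {T : ℝ → ℝ} {P : Fin n → Set ℝ} {τ : Fin n → ℝ}

theorem follows_append (p q : List (Fin n)) (x : ℝ) :
    Follows T P (p ++ q) x ↔ Follows T P p x ∧ Follows T P q (T^[p.length] x) := by
  induction p generalizing x with
  | nil => simp [Follows]
  | cons j p ih =>
    simp only [List.cons_append, Follows, List.length_cons, Function.iterate_succ,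
      Function.comp_apply, ih, and_assoc]

theorem follows_take {p : List (Fin n)} (j : ℕ) {x : ℝ} (h : Follows T P p x) :
    Follows T P (p.take j) x := by
  rw [← List.take_append_drop j p, follows_append] at h
  exact h.1

theorem tr_append (p q : List (Fin n)) : tr τ (p ++ q) = tr τ p + tr τ q := by
  simp [tr]

theorem iter_follows (hS : ∀ j, ∀ x ∈ P j, T x = x + τ j) (p : List (Fin n)) (x : ℝ)
    (h : Follows T P p x) : T^[p.length] x = x + tr τ p := by
  induction p generalizing x with
  | nil => simp [tr]
  | cons j p ih =>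
    rw [List.length_cons, Function.iterate_succ, Function.comp_apply, ih _ h.2, hS j x h.1]
    simp only [tr, List.map_cons, List.sum_cons]
    ring

variable {c C b : ℝ} {u l : Fin n → ℝ} {w : Fin n → List (Fin n)} {p : List (Fin n)}

theorem floor_mem (hS : Sys T P τ) (hL : Lev T P τ c C b u l w p) {j : ℕ} (hj : j < p.length)
    {x : ℝ} (hx : x ∈ Ico 0 b) : x + tr τ (p.take j) ∈ Ico (0 : ℝ) 1 := by
  have h1 := hL.itin0 x hx
  rw [← List.take_append_drop j p, follows_append] at h1
  have h2 := iter_follows hS.trans _ _ h1.1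
  rw [h2] at h1
  rw [List.drop_eq_getElem_cons hj] at h1
  have h3 := h1.2.1
  rw [hS.cover]
  exact mem_iUnion.2 ⟨_, h3⟩

theorem floor_bd (hS : Sys T P τ) (hL : Lev T P τ c C b u l w p) {j : ℕ} (hj : j < p.length) :
    0 ≤ tr τ (p.take j) ∧ tr τ (p.take j) + b ≤ 1 := by
  constructor
  · have := floor_mem hS hL hj (x := 0) ⟨le_rfl, hL.bpos⟩
    rw [zero_add] at this
    exact this.1
  · by_contra hcon
    rw [not_le] at hcon
    have h2 : max 0 (1 - tr τ (p.take j)) ∈ Ico 0 b :=
      ⟨le_max_left _ _, max_lt hL.bpos (by linarith)⟩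
    have h3 := (floor_mem hS hL hj h2).2
    have h4 := le_max_right 0 (1 - tr τ (p.take j))
    linarith

theorem floor_box (hS : Sys T P τ) (hL : Lev T P τ c C b u l w p) (j : ℕ) :
    Box T P τ c (tr τ (p.take j)) (tr τ (p.take j) + b) (fun i => u i + tr τ (p.take j)) l
      (fun i => (w i).drop (p.take j).length ++ p.take j) := by
  have hw : ∀ i, p.take j ++ (w i).drop (p.take j).length = w i := fun i =>
    List.prefix_iff_eq_append.1 ((List.take_prefix j p).trans (hL.pre i))
  have htr : ∀ i, tr τ ((w i).drop (p.take j).length ++ p.take j) = tr τ (w i) := by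
    intro i
    conv_rhs => rw [← hw i]
    rw [tr_append, tr_append, add_comm]
  have hb := hL.bpos
  refine ⟨by linarith, fun i => ?_, fun i => ?_, fun i x hx => ?_, fun i => ?_, ?_⟩
  · have := hL.sub i
    constructor <;> linarith [this.1, this.2]
  · have := hL.len i
    have h2 : tr τ (p.take j) + b - tr τ (p.take j) = b := by ring
    rw [h2]
    exact this
  · have hy : x - tr τ (p.take j) ∈ Ico (u i) (u i + l i) := by
      rw [mem_Ico] at hx ⊢
      constructor <;> linarith [hx.1, hx.2]
    have h1 := hL.itin i _ hy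
    have h1' := h1
    rw [← hw i, follows_append] at h1
    have h2 := iter_follows hS.trans _ _ h1.1
    rw [h2, sub_add_cancel] at h1
    rw [follows_append]
    refine ⟨h1.2, ?_⟩
    rw [iter_follows hS.trans _ _ h1.2]
    have h3 : x + tr τ ((w i).drop (p.take j).length) =
        (x - tr τ (p.take j)) + tr τ (w i) := by
      conv_rhs => rw [← hw i]
      rw [tr_append]
      ring
    rw [h3]
    have h4 : (x - tr τ (p.take j)) + tr τ (w i) ∈ Ico (0 : ℝ) b := by
      have h5 := hL.ret i
      rw [mem_Ico] at hy ⊢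
      constructor <;> linarith [hy.1, hy.2, h5.1, h5.2]
    have h5 := hL.itin0 _ h4
    exact follows_take j h5
  · rw [htr i]
    have := hL.ret i
    constructor <;> linarith [this.1, this.2]
  · refine ⟨p.take j, fun i => (w i).drop (p.take j).length, ?_, rfl⟩
    have h6 : (fun i => p.take j ++ (w i).drop (p.take j).length) = w := funext hw
    rw [h6]
    exact hL.niel

theorem vol_floors (hL : Lev T P τ c C b u l w p) :
    ENNReal.ofReal c ≤ volume (⋃ j ∈ Finset.range p.length,
      Ico (tr τ (p.take j)) (tr τ (p.take j) + b)) := by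
  rw [measure_biUnion_finset]
  · have h1 : ∀ j ∈ Finset.range p.length,
        volume (Ico (tr τ (p.take j)) (tr τ (p.take j) + b)) = ENNReal.ofReal b := by
      intro j _
      rw [Real.volume_Ico, add_sub_cancel_left]
    rw [Finset.sum_congr rfl h1, Finset.sum_const, Finset.card_range, nsmul_eq_mul,
      ← ENNReal.ofReal_natCast, ← ENNReal.ofReal_mul (Nat.cast_nonneg _)]
    exact ENNReal.ofReal_le_ofReal hL.high
  · intro j hj k hk hjk
    exact hL.disj j k (by simpa using hj) (by simpa using hk) hjk
  · intro j _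
    exact measurableSet_Ico

theorem t_box : S_box := by
  intro n T P τ hS c C hc hL
  have hL' : ∀ N : ℕ, ∃ b u l w p, b < 1 / ((N : ℝ) + 1) ∧ Lev T P τ c C b u l w p := fun N =>
    hL _ (by positivity)
  choose β μ ℓ ω π hβ hlev using hL'
  have hlen : ∀ N, 0 < (π N).length := by
    intro N
    rcases Nat.eq_zero_or_pos (π N).length with h | h
    · have := (hlev N).high
      rw [h, Nat.cast_zero, zero_mul] at this
      linarith
    · exact h
  let J : ℕ → ℕ → ℕ := fun N j => if j < (π N).length then j else 0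
  have hJ : ∀ N j, J N j < (π N).length := by
    intro N j
    simp only [J]
    split_ifs with h
    · exact h
    · exact hlen N
  let tt : ℕ → ℝ := fun k => tr τ ((π k.unpair.1).take (J k.unpair.1 k.unpair.2))
  refine ⟨tt, fun k => tt k + β k.unpair.1, fun k i => μ k.unpair.1 i + tt k,
    fun k => ℓ k.unpair.1, fun k i => (ω k.unpair.1 i).drop
      ((π k.unpair.1).take (J k.unpair.1 k.unpair.2)).length ++
        (π k.unpair.1).take (J k.unpair.1 k.unpair.2), fun k => ?_, fun k => ?_, ?_⟩
  · exact floor_box hS (hlev _) _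
  · exact floor_bd hS (hlev _) (hJ _ _)
  · let X : ℕ → Set ℝ := fun N => ⋃ j ∈ Finset.range (π N).length,
      Ico (tr τ ((π N).take j)) (tr τ ((π N).take j) + β N)
    let Y : ℕ → Set ℝ := fun N => ⋃ M : ℕ, X (N + M)
    have hXm : ∀ N, MeasurableSet (X N) := fun N =>
      Finset.measurableSet_biUnion _ fun j _ => measurableSet_Ico
    have hYm : ∀ N, MeasurableSet (Y N) := fun N => MeasurableSet.iUnion fun M => hXm _
    have hYa : Antitone Y := by
      intro N N' hNN
      apply iUnion_subset
      intro M
      obtain ⟨d, rfl⟩ := Nat.exists_eq_add_of_le hNN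
      rw [add_assoc]
      exact subset_iUnion (fun M => X (N + M)) (d + M)
    have hX1 : ∀ N, X N ⊆ Ico (0 : ℝ) 1 := by
      intro N
      apply iUnion₂_subset
      intro j hj
      obtain ⟨h1, h2⟩ := floor_bd hS (hlev N) (Finset.mem_range.1 hj)
      exact Ico_subset_Ico h1 h2
    have hY1 : Y 0 ⊆ Ico (0 : ℝ) 1 := iUnion_subset fun M => hX1 _
    have hYf : volume (Y 0) ≠ ⊤ := by
      refine ne_top_of_le_ne_top ?_ (measure_mono hY1)
      rw [Real.volume_Ico]
      exact ENNReal.ofReal_ne_top
    have hYv : ∀ N, ENNReal.ofReal c ≤ volume (Y N) := by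
      intro N
      refine (vol_floors (hlev N)).trans (measure_mono ?_)
      exact subset_iUnion (fun M => X (N + M)) 0
    have hI : ENNReal.ofReal c ≤ volume (⋂ N, Y N) := by
      rw [hYa.measure_iInter (fun N => (hYm N).nullMeasurableSet) ⟨0, hYf⟩]
      exact le_iInf hYv
    refine lt_of_lt_of_le (ENNReal.ofReal_pos.2 hc) (hI.trans (measure_mono ?_))
    intro x hx δ hδ
    obtain ⟨N, hN⟩ := exists_nat_one_div_lt hδ
    have h1 := mem_iInter.1 hx N
    obtain ⟨M, hM⟩ := mem_iUnion.1 h1
    obtain ⟨j, hj, hxj⟩ := mem_iUnion₂.1 hM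
    have hj' := Finset.mem_range.1 hj
    refine ⟨Nat.pair (N + M) j, ?_, ?_⟩
    · have h2 : J (N + M) j = j := if_pos hj'
      simp only [tt, Nat.unpair_pair, h2]
      exact hxj
    · simp only [Nat.unpair_pair, add_sub_cancel_left]
      refine (hβ (N + M)).trans (lt_of_le_of_lt ?_ hN)
      apply one_div_le_one_div_of_le
      · positivity
      · push_cast
        have : (0 : ℝ) ≤ M := Nat.cast_nonneg M
        linarith

end Pool.Agent.H261.IE
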